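import Pool.Agent.H79.Drift.Stmts

/-!
# Row AVG of the drift theorem: averaging over the letters
-/

set_option autoImplicit false

namespace Pool.H79.Drift

open Pool.H79.Maze

/-- the value of the next step -/
noncomputable def avgNxt (ω : Dir → ℝ) (T : ℕ) (u : Sys → ℤ × ℤ) (I : Dir) (s : Sys) : ℝ :=
  if s.nx I (u s) = s.d then 0 else
    if s.nx I (u s) ∈ s.A then s.bb ω T (s.nx I (u s)) else 1

lemma avg_bb_nonneg (ω : Dir → ℝ) (hω : IsLaw ω) (s : Sys) (T : ℕ) : ∀ u, 0 ≤ s.bb ω T u := by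
  induction T with
  | zero => intro u; simp [Sys.bb]
  | succ T ih =>
    intro u
    rw [Sys.bb]
    refine Finset.sum_nonneg fun I _ => mul_nonneg (hω.1 I) ?_
    split_ifs
    · exact le_refl _
    · exact ih _
    · exact zero_le_one

lemma avg_nxt_nonneg (ω : Dir → ℝ) (hω : IsLaw ω) (T : ℕ) (u : Sys → ℤ × ℤ) (I : Dir) (s : Sys) :
    0 ≤ avgNxt ω T u I s := by
  unfold avgNxt
  split_ifs
  · exact le_refl _
  · exact avg_bb_nonneg ω hω s T _
  · exact zero_le_one

theorem AVG : AVGStmt := by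
  intro ω hω T
  induction T with
  | zero =>
    intro F hF u h
    refine ⟨[], fun s hs => ?_⟩
    exfalso
    have h1 := Finset.single_le_sum (f := fun s : Sys => s.bb ω 0 (u s))
      (fun i _ => avg_bb_nonneg ω hω i 0 _) (hF.mem_toFinset.2 hs)
    have h2 : s.bb ω 0 (u s) = 1 := rfl
    linarith
  | succ T ih =>
    intro F hF u h
    have hsum : ∑ s ∈ hF.toFinset, s.bb ω (T + 1) (u s) =
        ∑ I : Dir, ω I * ∑ s ∈ hF.toFinset, avgNxt ω T u I s := by
      simp_rw [Finset.mul_sum]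
      rw [Finset.sum_comm]
      rfl
    rw [hsum] at h
    obtain ⟨I, hI⟩ : ∃ I : Dir, ∑ s ∈ hF.toFinset, avgNxt ω T u I s < 1 := by
      by_contra hcon
      push Not at hcon
      have h1 : ∑ I : Dir, ω I * 1 ≤ ∑ I : Dir, ω I * ∑ s ∈ hF.toFinset, avgNxt ω T u I s :=
        Finset.sum_le_sum fun I _ => mul_le_mul_of_nonneg_left (hcon I) (hω.1 I)
      have h2 : ∑ I : Dir, ω I * 1 = 1 := by simpa using hω.2
      linarith
    have hlt : ∀ s ∈ F, avgNxt ω T u I s < 1 := fun s hs =>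
      lt_of_le_of_lt (Finset.single_le_sum (f := fun s : Sys => avgNxt ω T u I s)
        (fun i _ => avg_nxt_nonneg ω hω T u I i) (hF.mem_toFinset.2 hs)) hI
    have hF' : {s | s ∈ F ∧ s.nx I (u s) ≠ s.d}.Finite := hF.subset fun s hs => hs.1
    have hA : ∀ s ∈ F, s.nx I (u s) ≠ s.d → s.nx I (u s) ∈ s.A := by
      intro s hs hd
      by_contra hA
      have := hlt s hs
      unfold avgNxt at this
      rw [if_neg hd, if_neg hA] at this
      exact lt_irrefl _ this
    have hle : ∑ s ∈ hF'.toFinset, s.bb ω T (s.nx I (u s)) ≤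
        ∑ s ∈ hF.toFinset, avgNxt ω T u I s := by
      have h1 : ∑ s ∈ hF'.toFinset, s.bb ω T (s.nx I (u s)) =
          ∑ s ∈ hF'.toFinset, avgNxt ω T u I s := by
        refine Finset.sum_congr rfl fun s hs => ?_
        obtain ⟨hs1, hs2⟩ := hF'.mem_toFinset.1 hs
        unfold avgNxt
        rw [if_neg hs2, if_pos (hA s hs1 hs2)]
      rw [h1]
      refine Finset.sum_le_sum_of_subset_of_nonneg ?_ fun i _ _ => avg_nxt_nonneg ω hω T u I i
      intro s hs
      exact hF.mem_toFinset.2 (hF'.mem_toFinset.1 hs).1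
    obtain ⟨w, hw⟩ := ih _ hF' (fun s => s.nx I (u s)) (lt_of_le_of_lt hle hI)
    refine ⟨I :: w, fun s hs => ?_⟩
    rw [Sys.good]
    by_cases hd : s.nx I (u s) = s.d
    · exact Or.inl hd
    · exact Or.inr ⟨hA s hs hd, hw s ⟨hs, hd⟩⟩

end Pool.H79.Drift
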