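import Pool.Agent.H79.Drift.Stmts

set_option autoImplicit false

namespace Pool.H79.Drift

open Pool.H79.Maze List

/-- one word for all boards with basins of radius `r` -/
def WRDStmt : Prop := ∀ (a b : ℤ) (r k : ℕ), ∃ w : List Dir,
  ∀ (M : SimpleGraph (ℤ × ℤ)) (o d : ℤ × ℤ) (L : ℤ) (n : ℕ), IsBoard M → Near M d n o → n ≤ k →
  o ≠ d → Ph a b o + cc a b * (k + 1) ≤ L → (∀ v, Basin M d a b L o v → v - o ∈ Box r) →
  sees M d w o

theorem WRD (h1 : WFSStmt) (h2 : BRDStmt) : WRDStmt := by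
  intro a b r k
  obtain ⟨w, hw⟩ := h1 a b k r
  refine ⟨w, fun M o d L n hM hN hn hod hL hB => ?_⟩
  obtain ⟨s, hs, hA, hg⟩ := h2 a b k r n M o d L hM hN hn hod hL hB
  have := hg w 0 hs.zero (hw s hs hA)
  rwa [add_zero] at this

/-- reachable from `o` without visiting `d` -/
def Before (M : SimpleGraph (ℤ × ℤ)) (d o v : ℤ × ℤ) : Prop :=
  Relation.ReflTransGen (fun p q => M.Adj p q ∧ q ≠ d) o v

lemma Basin.before {M : SimpleGraph (ℤ × ℤ)} {d : ℤ × ℤ} {a b L : ℤ} {o v : ℤ × ℤ}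
    (h : Basin M d a b L o v) : Before M d o v := by
  induction h with
  | refl => exact Relation.ReflTransGen.refl
  | tail _ h ih => exact ih.tail ⟨h.1, h.2.1⟩

lemma Basin.le {M : SimpleGraph (ℤ × ℤ)} {d : ℤ × ℤ} {a b L : ℤ} {o v : ℤ × ℤ}
    (h : Basin M d a b L o v) (ho : Ph a b o ≤ L) : Ph a b v ≤ L := by
  induction h with
  | refl => exact ho
  | tail _ h _ => exact h.2.2

/-- growth condition -/
def Growth (g : ℕ → ℕ) (M : SimpleGraph (ℤ × ℤ)) (d o : ℤ × ℤ) : Prop :=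
  ∃ a b : ℤ, ∃ K : ℕ, ∀ L : ℕ, K ≤ L → ∀ v, Basin M d a b L o v → v.1.natAbs + v.2.natAbs ≤ g L

theorem DRI (h1 : WRDStmt) (h2 : INFStmt) (h3 : TRJStmt) (g : ℕ → ℕ) : ∃ A : ℕ → Dir,
    ∀ M : SimpleGraph (ℤ × ℤ), IsBoard M → ∀ o d, M.Reachable o d → Growth g M d o →
    ∃ n, pos M A o n = d := by
  choose w hw using h1
  -- enumeration of the directions
  let e : ℕ → ℤ × ℤ := fun n => Denumerable.ofNat (ℤ × ℤ) n.unpair.1
  have he : ∀ (x : ℤ × ℤ) (N : ℕ), ∃ n, N ≤ n ∧ e n = x := fun x N =>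
    ⟨Nat.pair (Encodable.encode x) N, Nat.right_le_pair _ _, by
      simp only [e, Nat.unpair_pair]; exact Denumerable.ofNat_encode x⟩
  let lev : ℕ → ℕ → ℕ := fun n l =>
    n + cc (e n).1 (e n).2 * l + cc (e n).1 (e n).2 * (n + l + 1)
  obtain ⟨A, W, W0, W1, hA⟩ := h2 (fun n l => w (e n).1 (e n).2 (2 * g (lev n l)) (n + l))
  refine ⟨A, fun M hM o d hr hg => ?_⟩
  by_cases hod : o = d
  · exact ⟨0, hod⟩
  obtain ⟨a, b, K, hK⟩ := hg
  obtain ⟨k, hk⟩ := near_of_reachable hr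
  obtain ⟨n, hn, hen⟩ := he (a, b) (max K (max k (Ph a b o).natAbs))
  have hn1 : K ≤ n := (le_max_left _ _).trans hn
  have hn2 : k ≤ n := ((le_max_left _ _).trans (le_max_right _ _)).trans hn
  have hn3 : (Ph a b o).natAbs ≤ n := ((le_max_right _ _).trans (le_max_right _ _)).trans hn
  apply hA M o d (n + 1)
  rw [W1, sees_append, sees_append]
  by_cases h0 : sees M d (W n) o
  · exact Or.inl h0
  right; left
  set l := (W n).length with hl
  have hlev : lev n l = n + cc a b * l + cc a b * (n + l + 1) := by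
    simp only [lev, hen]
  obtain ⟨m, hm1, hm2⟩ := go_near (W n) hk
  have hPo : Ph a b o ≤ n := by omega
  have hL1 : Ph a b o + cc a b * (l : ℕ) ≤ ((lev n l : ℕ) : ℤ) := by
    rw [hlev]; push_cast
    have : (0 : ℤ) ≤ cc a b * (n + l + 1) := by positivity
    linarith
  obtain ⟨hT1, hT2⟩ := h3 M d a b (lev n l : ℕ) (W n) o hM h0 hL1
  have hKl : K ≤ lev n l := by rw [hlev]; omega
  have hb := hK _ hKl
  simp only [hen]
  apply hw a b (2 * g (lev n l)) (n + l) M _ d (lev n l : ℕ) m hM hm2 (by omega)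
    (not_sees_ne _ hod h0)
  · have h4 : (cc a b : ℤ) * ((n + l : ℕ) + 1) = cc a b * (n + l + 1) := by push_cast; ring
    have h5 : ((lev n l : ℕ) : ℤ) = n + cc a b * l + cc a b * (n + l + 1) := by
      rw [hlev]; push_cast; ring
    rw [h4, h5]
    linarith
  · intro v hv
    have h6 := hb v (hT1.trans hv)
    have h7 := hb _ hT1
    simp only [Box, Finset.mem_product, Finset.mem_Icc, Prod.fst_sub, Prod.snd_sub]
    push_cast
    refine ⟨⟨?_, ?_⟩, ?_, ?_⟩ <;> omega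

/-- the part before `d` lies in a sector of opening less than 180 degrees -/
def Sector (M : SimpleGraph (ℤ × ℤ)) (d o : ℤ × ℤ) : Prop :=
  ∃ a b a' b' c c' : ℤ, a * b' ≠ a' * b ∧ ∀ v, Before M d o v →
    c ≤ a * v.1 + b * v.2 ∧ c' ≤ a' * v.1 + b' * v.2

theorem FIN (h1 : WRDStmt) (h2 : INFStmt) (h3 : TRJStmt) (h4 : SECStmt) (g : ℕ → ℕ) :
    ∃ A : ℕ → Dir, ∀ M : SimpleGraph (ℤ × ℤ), IsBoard M → ∀ o d, M.Reachable o d →
    (Sector M d o ∨ Growth g M d o) → ∃ n, pos M A o n = d := by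
  obtain ⟨A, hA⟩ := DRI h1 h2 h3 (fun L => max (g L) (L ^ 2))
  refine ⟨A, fun M hM o d hr h => hA M hM o d hr ?_⟩
  rcases h with h | h
  · obtain ⟨a, b, a', b', c, c', hne, hv⟩ := h
    obtain ⟨K, hK⟩ := h4 a b a' b' c c' hne
    refine ⟨a + a', b + b', max K (Ph (a + a') (b + b') o).natAbs, fun L hL v hb => ?_⟩
    have h5 := hv v hb.before
    refine (hK L ((le_max_left _ _).trans hL) v h5.1 h5.2 ?_).trans (le_max_right _ _)
    apply hb.le
    have := (le_max_right _ _).trans hL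
    omega
  · obtain ⟨a, b, K, hK⟩ := h
    exact ⟨a, b, K, fun L hL v hb => (hK L hL v hb).trans (le_max_left _ _)⟩

end Pool.H79.Drift
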