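import Pool.Agent.H79.Drift.Stmts

/-! Row BBD: exit part and survival part. -/

set_option autoImplicit false

namespace Pool.H79.Drift

open Pool.H79.Maze

namespace BBDaux

theorem P_add' (s : Sys) (ω : Dir → ℝ) (f g : ℤ × ℤ → ℝ) (u : ℤ × ℤ) :
    s.P ω (fun v => f v + g v) u = s.P ω f u + s.P ω g u := by
  unfold Sys.P
  rw [← Finset.sum_add_distrib]
  refine Finset.sum_congr rfl fun I _ => ?_
  by_cases h : s.nx I u ∈ s.A
  · simp only [h, if_true]
    ring
  · simp only [h, if_false]
    ring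

theorem step (s : Sys) (ω : Dir → ℝ) (hd : s.d ∉ s.A) (T : ℕ) (u : ℤ × ℤ) :
    s.bb ω (T + 1) u = s.ka ω u + s.P ω (s.bb ω T) u := by
  unfold Sys.ka Sys.P
  rw [← Finset.sum_add_distrib]
  change ∑ I : Dir, ω I * (if s.nx I u = s.d then 0 else
      if s.nx I u ∈ s.A then s.bb ω T (s.nx I u) else 1) = _
  refine Finset.sum_congr rfl fun I _ => ?_
  by_cases h1 : s.nx I u = s.d
  · have h2 : s.nx I u ∉ s.A := by
      rw [h1]
      exact hd
    rw [if_pos h1, if_pos (Or.inl h1), if_neg h2]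
    ring
  · by_cases h2 : s.nx I u ∈ s.A
    · rw [if_neg h1, if_pos h2, if_pos (Or.inr h2), if_pos h2]
      ring
    · rw [if_neg h1, if_neg h2, if_neg (by tauto), if_neg h2]
      ring

end BBDaux

open BBDaux in
theorem BBD (h1 : GRCStmt) : BBDStmt := by
  intro s ω hd T
  induction T with
  | zero =>
    intro u
    simp [Sys.bb, Sys.G]
  | succ T ih =>
    intro u
    rw [step s ω hd T u, h1 s ω (s.ka ω) T u, Function.iterate_succ_apply' (s.P ω) T]
    have e : s.bb ω T = fun v => s.G ω (s.ka ω) T v + (s.P ω)^[T] (fun _ => 1) v := by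
      funext v
      exact ih v
    rw [e, P_add']
    ring

end Pool.H79.Drift
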