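import Pool.Agent.H79.Drift.Stmts

/-!
# Drift theorem, row BRD: from boards to systems
-/

set_option autoImplicit false

namespace Pool.H79.Drift

open Pool.H79.Maze

section

variable {M : SimpleGraph (ℤ × ℤ)}

/-- neighbours on a board differ by a letter -/
lemma exists_dir (hM : IsBoard M) {u v : ℤ × ℤ} (h : M.Adj u v) : ∃ I : Dir, v = u + I.vec := by
  have h1 := hM u v h
  obtain ⟨u1, u2⟩ := u
  obtain ⟨v1, v2⟩ := v
  simp only at h1
  have h2 : (v1 = u1 ∧ v2 = u2 + 1) ∨ (v1 = u1 ∧ v2 = u2 - 1) ∨ (v1 = u1 + 1 ∧ v2 = u2) ∨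
      (v1 = u1 - 1 ∧ v2 = u2) := by
    rcases abs_cases (u1 - v1) with ⟨e1, f1⟩ | ⟨e1, f1⟩ <;>
      rcases abs_cases (u2 - v2) with ⟨e2, f2⟩ | ⟨e2, f2⟩ <;> omega
  rcases h2 with ⟨e, f⟩ | ⟨e, f⟩ | ⟨e, f⟩ | ⟨e, f⟩
  · exact ⟨.N, by ext <;> simp [Dir.vec] <;> omega⟩
  · exact ⟨.S, by ext <;> simp [Dir.vec] <;> omega⟩
  · exact ⟨.E, by ext <;> simp [Dir.vec] <;> omega⟩
  · exact ⟨.W, by ext <;> simp [Dir.vec] <;> omega⟩

lemma opp_vec (I : Dir) : I.vec + (opp I).vec = 0 := by
  cases I <;> simp [Dir.vec, opp]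

/-- a basin point different from the start is not the destination -/
lemma basin_ne {d o : ℤ × ℤ} {a b L : ℤ} (hod : o ≠ d) {v : ℤ × ℤ} (h : Basin M d a b L o v) :
    v ≠ d := by
  unfold Basin at h
  induction h with
  | refl => exact hod
  | tail _ h2 _ => exact h2.2.1

open Classical in
/-- the system of a board -/
noncomputable def bsys (M : SimpleGraph (ℤ × ℤ)) (a b L : ℤ) (r : ℕ) (o d : ℤ × ℤ) : Sys where
  A := (Box r).filter (fun v => Basin M d a b L o (o + v))
  O := ((Box r).filter (fun v => Basin M d a b L o (o + v)) ×ˢ (Finset.univ : Finset Dir)).filter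
    (fun p => M.Adj (o + p.1) (o + p.1 + p.2.vec))
  d := d - o

lemma mem_bA {a b L : ℤ} {r : ℕ} {o d v : ℤ × ℤ} :
    v ∈ (bsys M a b L r o d).A ↔ v ∈ Box r ∧ Basin M d a b L o (o + v) := by
  classical
  simp [bsys]

lemma mem_bO {a b L : ℤ} {r : ℕ} {o d v : ℤ × ℤ} {I : Dir} :
    (v, I) ∈ (bsys M a b L r o d).O ↔
      v ∈ (bsys M a b L r o d).A ∧ M.Adj (o + v) (o + v + I.vec) := by
  classical
  simp [bsys]

lemma step_eq {a b L : ℤ} {r : ℕ} {o d u : ℤ × ℤ} (hu : u ∈ (bsys M a b L r o d).A) (I : Dir) :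
    step M I (o + u) = o + (bsys M a b L r o d).nx I u := by
  unfold step Sys.nx
  by_cases h : M.Adj (o + u) (o + u + I.vec)
  · have h2 : (u, I) ∈ (bsys M a b L r o d).O := mem_bO.2 ⟨hu, h⟩
    rw [if_pos h, if_pos h2, add_assoc]
  · have h2 : (u, I) ∉ (bsys M a b L r o d).O := fun h3 => h (mem_bO.1 h3).2
    rw [if_neg h, if_neg h2]

lemma basin_next {a b L : ℤ} {o d p q : ℤ × ℤ} (h : Basin M d a b L o p) (hq : M.Adj p q)
    (hd : q ≠ d) (hL : Ph a b q ≤ L) : Basin M d a b L o q :=
  Relation.ReflTransGen.tail h ⟨hq, hd, hL⟩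

end

theorem BRD (hPhi : PHIStmt) : BRDStmt := by
  intro a b k r n M o d L hM hnear hnk hod hL hbox
  obtain ⟨hadd, hinc, -⟩ := hPhi a b
  have hcov : ∀ v, Basin M d a b L o (o + v) → v ∈ (bsys M a b L r o d).A := by
    intro v hv
    refine mem_bA.2 ⟨?_, hv⟩
    have := hbox _ hv
    rwa [add_sub_cancel_left] at this
  have hup : ∀ I : Dir, Ph a b I.vec ≤ cc a b := fun I => (abs_le.1 (hinc I)).2
  have hdest : (bsys M a b L r o d).d = d - o := rfl
  have h0 : (0 : ℤ × ℤ) ∈ (bsys M a b L r o d).A := by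
    apply hcov
    rw [add_zero]
    exact Relation.ReflTransGen.refl
  -- the path
  have hpath : ∀ (n : ℕ) (p : ℤ × ℤ), Near M d n p → Basin M d a b L o p →
      Ph a b p + cc a b * n ≤ L → ∃ m ≤ n, (bsys M a b L r o d).Pth m (p - o) := by
    intro n p hn
    induction hn with
    | base =>
      intro _ _
      exact ⟨0, le_refl _, by simp [Sys.Pth, hdest]⟩
    | step n p q hpq _ ih =>
      intro hb hle
      obtain ⟨I, hI⟩ := exists_dir hM hpq
      have hq1 : Ph a b q ≤ Ph a b p + cc a b := by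
        rw [hI, hadd]
        have := hup I
        linarith
      have hmem : p - o ∈ (bsys M a b L r o d).A := by
        apply hcov
        rwa [add_sub_cancel]
      have hO : (p - o, I) ∈ (bsys M a b L r o d).O := by
        refine mem_bO.2 ⟨hmem, ?_⟩
        rw [add_sub_cancel, ← hI]
        exact hpq
      have he : p - o + I.vec = q - o := by
        rw [hI]; abel
      push_cast at hle
      by_cases hqd : q = d
      · refine ⟨1, by omega, ?_⟩
        refine ⟨hmem, I, hO, ?_⟩
        rw [he, hqd]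
        rfl
      · have hqL : Ph a b q + cc a b * n ≤ L := by nlinarith
        have hqL' : Ph a b q ≤ L := by
          have : (0 : ℤ) ≤ cc a b * n := by positivity
          linarith
        obtain ⟨m, hm, hpm⟩ := ih (basin_next hb hpq hqd hqL') hqL
        refine ⟨m + 1, by omega, hmem, I, hO, ?_⟩
        rw [he]
        exact hpm
  refine ⟨bsys M a b L r o d, ?_, ?_, ?_⟩
  · refine ⟨h0, ?_, ?_, ?_, ?_, ?_⟩
    · intro h
      have h1 := (mem_bA.1 h).2
      rw [hdest, add_sub_cancel] at h1
      exact basin_ne hod h1 rfl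
    · rintro ⟨v, I⟩ hp
      exact (mem_bO.1 hp).1
    · intro u hu I hI hA
      refine mem_bO.2 ⟨hA, ?_⟩
      have e1 : o + (u + I.vec) = o + u + I.vec := (add_assoc _ _ _).symm
      have e2 : o + (u + I.vec) + (opp I).vec = o + u := by
        rw [add_assoc, add_assoc u, opp_vec, add_zero]
      rw [e2, e1]
      exact (mem_bO.1 hI).2.symm
    · intro u hu I hI hA hd
      have hadj := (mem_bO.1 hI).2
      have hb := (mem_bA.1 hu).2
      have hne : o + u + I.vec ≠ d := by
        intro h
        apply hd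
        rw [hdest, ← h]
        abel
      have hgt : L < Ph a b (o + u + I.vec) := by
        by_contra hle
        apply hA
        apply hcov
        rw [← add_assoc]
        exact basin_next hb hadj hne (not_lt.1 hle)
      rw [hadd, hadd] at hgt
      have := hup I
      push_cast
      nlinarith
    · have h1 : Ph a b o + cc a b * n ≤ L := by
        have : (cc a b : ℤ) * n ≤ cc a b * (k + 1) := by
          apply mul_le_mul_of_nonneg_left _ (by positivity)
          have : (n : ℤ) ≤ k := by exact_mod_cast hnk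
          linarith
        linarith
      obtain ⟨m, hm, hp⟩ := hpath n o hnear Relation.ReflTransGen.refl h1
      rw [sub_self] at hp
      exact ⟨m, hm.trans hnk, hp⟩
  · intro v hv
    exact (mem_bA.1 hv).1
  · intro w
    induction w with
    | nil => intro u _ h; exact h.elim
    | cons I w ih =>
      intro u hu h
      rw [Sys.good] at h
      rw [sees, step_eq hu]
      rcases h with h | ⟨h, h2⟩
      · left
        rw [h, hdest, add_sub_cancel]
      · right
        exact ih _ h h2

end Pool.H79.Drift
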