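import Pool.Agent.H79.Drift.Stmts

/-!
# Drift theorem (MP_46d976_co): row CHN, the chain of points (helper31)
-/

set_option autoImplicit false

namespace Pool.H79.Drift

open Pool.H79.Maze

theorem CHN (hG : GRCStmt) (hM : MAXStmt) : CHNStmt := by
  intro s ω hω hd m hm hmI T n
  have hm1 : m ≤ 1 := by
    have h1 := hω.2
    have h2 : ω Dir.N ≤ ∑ I : Dir, ω I :=
      Finset.single_le_sum (fun I _ => hω.1 I) (Finset.mem_univ _)
    exact (hmI _).trans (h2.trans h1.le)
  have hg0 : 0 ≤ s.G ω dl T 0 := (hM s ω hω T 0).1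
  induction n with
  | zero =>
    intro u hu
    have hu' : u = s.d := hu
    have : u ∉ s.A := by rw [hu']; exact hd
    simp [this]
  | succ n ih =>
    rintro u ⟨huA, J, hJO, hJ⟩
    rw [if_pos huA]
    have hnx : s.nx J u = u + J.vec := by simp [Sys.nx, hJO]
    have ihJ := ih _ hJ
    rw [← hnx] at ihJ
    set g := s.G ω dl T 0 with hgdef
    have hdl : dl u ≤ 1 := by unfold dl; split_ifs <;> norm_num
    have e1 : s.G ω dl T u ≤ dl u + s.P ω (s.G ω dl T) u := by
      rw [← hG s ω dl T u]
      exact (hM s ω hω T u).2.1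
    -- termwise
    have hJ1 : ω J ≤ 1 := by
      have h2 : ω J ≤ ∑ I : Dir, ω I :=
        Finset.single_le_sum (fun I _ => hω.1 I) (Finset.mem_univ _)
      exact h2.trans hω.2.le
    have hterm : ∀ I : Dir, (if s.nx I u ∈ s.A then s.G ω dl T (s.nx I u) else 0) ≤ g := by
      intro I
      split_ifs with h
      · exact (hM s ω hω T _).2.2
      · exact hg0
    have e2 : s.P ω (s.G ω dl T) u ≤ ω J * (n + (1 - m ^ n) * g) + (1 - ω J) * g := by
      unfold Sys.P
      have h3 : (∑ I : Dir, ω I * (if s.nx I u ∈ s.A then s.G ω dl T (s.nx I u) else 0)) ≤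
          ∑ I : Dir, (ω I * g + (if I = J then ω J * (n + (1 - m ^ n) * g) - ω J * g else 0)) := by
        refine Finset.sum_le_sum fun I _ => ?_
        split_ifs with h1 h2 h2
        · subst h2
          rw [if_pos h1] at ihJ
          have := mul_le_mul_of_nonneg_left ihJ (hω.1 I)
          linarith
        · have h4 := hterm I
          rw [if_pos h1] at h4
          have := mul_le_mul_of_nonneg_left h4 (hω.1 I)
          linarith
        · subst h2
          rw [if_neg h1] at ihJ
          have := mul_le_mul_of_nonneg_left ihJ (hω.1 I)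
          linarith
        · have := mul_nonneg (hω.1 I) hg0
          linarith
      refine h3.trans (le_of_eq ?_)
      rw [Finset.sum_add_distrib, ← Finset.sum_mul, hω.2, Finset.sum_ite_eq' Finset.univ J]
      simp only [Finset.mem_univ, if_true]
      ring
    have hmn : 0 ≤ m ^ n := by positivity
    have hn0 : (0 : ℝ) ≤ n := by positivity
    have e3 : ω J * (n : ℝ) ≤ n := by
      nlinarith
    have e4 : m ^ (n + 1) * g ≤ ω J * m ^ n * g := by
      rw [pow_succ]
      have : m ^ n * m ≤ ω J * m ^ n := by nlinarith [hmI J]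
      exact mul_le_mul_of_nonneg_right this hg0
    push_cast
    nlinarith

end Pool.H79.Drift
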