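import Pool.Agent.H79.Maze.Real

/-!
# Drift theorem for the blind robot (problem MP_46d976_co): definitions

`Dir`, `Dir.vec`, `step`, `pos`, `go`, `sees`, `Near`, `IsBoard` are those of
`Pool.Agent.H79.Maze.Real` (namespace `Pool.H79.Maze`).
-/

set_option autoImplicit false

namespace Pool.H79.Drift

open Pool.H79.Maze

deriving instance DecidableEq for Pool.H79.Maze.Dir

instance : Fintype Dir := ⟨{.N, .S, .E, .W}, fun x => by cases x <;> decide⟩

/-- sums over the four letters -/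
lemma sum_dir (f : Dir → ℝ) : ∑ I : Dir, f I = f .N + f .S + f .E + f .W := by
  have : (Finset.univ : Finset Dir) = {.N, .S, .E, .W} := rfl
  rw [this, Finset.sum_insert (by decide), Finset.sum_insert (by decide),
    Finset.sum_insert (by decide), Finset.sum_singleton]
  ring

/-- opposite letter -/
def opp : Dir → Dir
  | .N => .S
  | .S => .N
  | .E => .W
  | .W => .E

/-- the linear function `a x + b y` -/
def Ph (a b : ℤ) (v : ℤ × ℤ) : ℤ := a * v.1 + b * v.2

/-- an upper bound of the increments of `Ph a b` -/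
noncomputable def cc (a b : ℤ) : ℕ := max (max a.natAbs b.natAbs) 1

/-- the box of radius `r` -/
noncomputable def Box (r : ℕ) : Finset (ℤ × ℤ) := Finset.Icc (-(r : ℤ)) r ×ˢ Finset.Icc (-(r : ℤ)) r

/-- A finite system: alive points, open directed edges, destination (the robot starts at `0`). -/
structure Sys where
  /-- alive points -/
  A : Finset (ℤ × ℤ)
  /-- open directed edges -/
  O : Finset ((ℤ × ℤ) × Dir)
  /-- destination -/
  d : ℤ × ℤ

namespace Sys

/-- one step in the system -/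
def nx (s : Sys) (I : Dir) (u : ℤ × ℤ) : ℤ × ℤ := if (u, I) ∈ s.O then u + I.vec else u

/-- started at `u`, the word reaches `d` before the robot leaves the alive points -/
def good (s : Sys) : List Dir → ℤ × ℤ → Prop
  | [], _ => False
  | I :: w, u => s.nx I u = s.d ∨ (s.nx I u ∈ s.A ∧ s.good w (s.nx I u))

/-- probability that a random word of length `T` with independent letters of law `ω` is not good -/
noncomputable def bb (s : Sys) (ω : Dir → ℝ) : ℕ → ℤ × ℤ → ℝ
  | 0, _ => 1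
  | T + 1, u => ∑ I : Dir, ω I * (if s.nx I u = s.d then 0 else
      if s.nx I u ∈ s.A then s.bb ω T (s.nx I u) else 1)

/-- the operator of the chain killed outside the alive points -/
noncomputable def P (s : Sys) (ω : Dir → ℝ) (h : ℤ × ℤ → ℝ) (u : ℤ × ℤ) : ℝ :=
  ∑ I : Dir, ω I * (if s.nx I u ∈ s.A then h (s.nx I u) else 0)

/-- probability to leave the alive points in one step, but not to `d` -/
noncomputable def ka (s : Sys) (ω : Dir → ℝ) (u : ℤ × ℤ) : ℝ :=
  ∑ I : Dir, ω I * (if s.nx I u = s.d ∨ s.nx I u ∈ s.A then 0 else 1)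

/-- `∑ t < T, P^t h` -/
noncomputable def G (s : Sys) (ω : Dir → ℝ) (h : ℤ × ℤ → ℝ) (T : ℕ) (u : ℤ × ℤ) : ℝ :=
  ∑ t ∈ Finset.range T, (s.P ω)^[t] h u

/-- `u` is joined to `d` by `n` open edges whose starting points are alive -/
def Pth (s : Sys) : ℕ → ℤ × ℤ → Prop
  | 0, u => u = s.d
  | n + 1, u => u ∈ s.A ∧ ∃ I : Dir, (u, I) ∈ s.O ∧ s.Pth n (u + I.vec)

end Sys

/-- indicator of `0` -/
noncomputable def dl (v : ℤ × ℤ) : ℝ := if v = 0 then 1 else 0

/-- `ω` is a probability vector -/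
def IsLaw (ω : Dir → ℝ) : Prop := (∀ I, 0 ≤ ω I) ∧ ∑ I : Dir, ω I = 1

/-- admissible systems -/
structure Adm (a b : ℤ) (k : ℕ) (s : Sys) : Prop where
  zero : (0 : ℤ × ℤ) ∈ s.A
  dA : s.d ∉ s.A
  sub : ∀ p ∈ s.O, p.1 ∈ s.A
  sym : ∀ u ∈ s.A, ∀ I : Dir, (u, I) ∈ s.O → u + I.vec ∈ s.A → (u + I.vec, opp I) ∈ s.O
  exit : ∀ u ∈ s.A, ∀ I : Dir, (u, I) ∈ s.O → u + I.vec ∉ s.A → u + I.vec ≠ s.d →
    ((cc a b * k + 1 : ℕ) : ℤ) ≤ Ph a b u
  path : ∃ n ≤ k, s.Pth n 0

/-- weight of a letter: going up costs `R ^ (-increment)` -/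
noncomputable def wt (R : ℝ) (a b : ℤ) (I : Dir) : ℝ :=
  R ^ (-(max (Ph a b I.vec) 0)) / ∑ J : Dir, R ^ (-(max (Ph a b J.vec) 0))

/-- points reachable from `o` without visiting `d`, inside the half-plane `Ph a b ≤ L` -/
def Basin (M : SimpleGraph (ℤ × ℤ)) (d : ℤ × ℤ) (a b L : ℤ) (o v : ℤ × ℤ) : Prop :=
  Relation.ReflTransGen (fun p q => M.Adj p q ∧ q ≠ d ∧ Ph a b q ≤ L) o v

end Pool.H79.Drift
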