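import Pool.Agent.H79.Drift.Stmts

/-!
# Drift theorem (MP_46d976_co): row EST, the main estimate (helper31)
-/

set_option autoImplicit false

namespace Pool.H79.Drift

open Pool.H79.Maze

theorem EST (hB : BBDStmt) (hR : REPStmt) (hMo : MONStmt) (hMx : MAXStmt) (hGb : GBDStmt) :
    ESTStmt := by
  intro s ω hω hd m hm hmI h0A k hpath π hBal hπ ε B hε hB0 hka hπB T hT
  have hg : s.G ω dl T 0 ≤ k / m ^ k := hGb s ω hω hd m hm hmI h0A k hpath T
  set g : ℝ := k / m ^ k with hgdef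
  have hg0 : 0 ≤ g := by positivity
  have key : ∀ (h : ℤ × ℤ → ℝ) (C : ℝ), 0 ≤ C → (∀ u ∈ s.A, π u * h u ≤ C * π 0) →
      s.G ω h T 0 ≤ s.A.card * C * g := by
    intro h C hC hh
    have h1 : π 0 * s.G ω h T 0 ≤ π 0 * (s.A.card * C * g) := by
      rw [hR s ω π hBal h0A h T]
      have h2 : ∑ u ∈ s.A, π u * h u * s.G ω dl T u ≤ ∑ _u ∈ s.A, C * π 0 * g := by
        refine Finset.sum_le_sum fun u hu => ?_
        have h3 := hMx s ω hω T u
        have h4 : s.G ω dl T u ≤ g := h3.2.2.trans hg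
        calc π u * h u * s.G ω dl T u ≤ C * π 0 * s.G ω dl T u :=
              mul_le_mul_of_nonneg_right (hh u hu) h3.1
          _ ≤ C * π 0 * g := mul_le_mul_of_nonneg_left h4 (mul_nonneg hC (hπ 0).le)
      refine h2.trans (le_of_eq ?_)
      rw [Finset.sum_const, nsmul_eq_mul]
      ring
    exact le_of_mul_le_mul_left h1 (hπ 0)
  obtain ⟨-, hk01, -, hdec⟩ := hMo s ω hω
  have exitp : s.G ω (s.ka ω) T 0 ≤ s.A.card * ε * g := by
    refine key _ ε hε fun u hu => ?_
    by_cases h0 : s.ka ω u = 0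
    · rw [h0, mul_zero]
      exact mul_nonneg hε (hπ 0).le
    · have h1 := hka u hu h0
      have h2 : π u * s.ka ω u ≤ π u * 1 := mul_le_mul_of_nonneg_left (hk01 u).2 (hπ u).le
      linarith
  have surv : s.G ω (fun _ => 1) T 0 ≤ s.A.card * B * g := by
    refine key _ B hB0 fun u hu => ?_
    rw [mul_one]
    exact hπB u hu
  have anti : ∀ t n : ℕ, (s.P ω)^[t + n] (fun _ => 1) 0 ≤ (s.P ω)^[t] (fun _ => 1) 0 := by
    intro t n
    induction n with
    | zero => exact le_rfl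
    | succ n ih => exact (hdec (t + n) 0).trans ih
  have sum : (T : ℝ) * (s.P ω)^[T] (fun _ => 1) 0 ≤ s.G ω (fun _ => 1) T 0 := by
    unfold Sys.G
    have h1 : ∑ _t ∈ Finset.range T, (s.P ω)^[T] (fun _ => 1) (0 : ℤ × ℤ) ≤
        ∑ t ∈ Finset.range T, (s.P ω)^[t] (fun _ => 1) (0 : ℤ × ℤ) := by
      refine Finset.sum_le_sum fun t ht => ?_
      have htT := Finset.mem_range.mp ht
      have := anti t (T - t)
      rwa [Nat.add_sub_cancel' htT.le] at this
    rwa [Finset.sum_const, Finset.card_range, nsmul_eq_mul] at h1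
  have hT0 : (0 : ℝ) < T := by exact_mod_cast hT
  have surv2 : (s.P ω)^[T] (fun _ => 1) (0 : ℤ × ℤ) ≤ s.A.card * B * g / T := by
    rw [le_div_iff₀ hT0]
    calc _ = (T : ℝ) * (s.P ω)^[T] (fun _ => 1) 0 := by ring
      _ ≤ _ := sum.trans surv
  rw [hB s ω hd T 0]
  calc s.G ω (s.ka ω) T 0 + (s.P ω)^[T] (fun _ => 1) 0
      ≤ s.A.card * ε * g + s.A.card * B * g / T := add_le_add exitp surv2
    _ = s.A.card * g * (ε + B / T) := by ring

end Pool.H79.Drift
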