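import Pool.Agent.H79.Drift.Stmts

set_option autoImplicit false

namespace Pool.H79.Drift

open Pool.H79.Maze

theorem EXS (hEST : ESTStmt) (hWTL : WTLStmt) (hPHI : PHIStmt) : EXSStmt := by
  intro a b k r η hη
  obtain ⟨_, _, p3⟩ := hPHI a b
  obtain ⟨c, hc⟩ : ∃ c : ℕ, c = cc a b := ⟨_, rfl⟩
  obtain ⟨V, hVdef⟩ : ∃ V : ℝ, V = ((Box r).card : ℝ) := ⟨_, rfl⟩
  have hV : 0 ≤ V := by rw [hVdef]; positivity
  obtain ⟨Q, hQ⟩ : ∃ Q : ℝ, Q = V * (k * 4 ^ k) := ⟨_, rfl⟩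
  have hQ0 : 0 ≤ Q := by rw [hQ]; positivity
  obtain ⟨R, hR⟩ : ∃ R : ℝ, R = Q * 2 / η + 1 := ⟨_, rfl⟩
  have hR1 : 1 ≤ R := by
    rw [hR]
    have : 0 ≤ Q * 2 / η := by positivity
    linarith
  have hR0 : 0 < R := by linarith
  obtain ⟨w1, w2, w3⟩ := hWTL a b R hR1
  obtain ⟨B, hB⟩ : ∃ B : ℝ, B = R ^ (2 * c * r) := ⟨_, rfl⟩
  have hB0 : 0 ≤ B := by rw [hB]; positivity
  obtain ⟨T, hT⟩ := exists_nat_gt (2 * (Q * R ^ (c * k) * B) / η)
  refine ⟨wt R a b, T + 1, w1, ?_⟩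
  intro s hs hA
  have hm : 0 < (R ^ c)⁻¹ / 4 := by positivity
  have hzero : R ^ (-(Ph a b 0)) = 1 := by
    have : Ph a b 0 = 0 := by simp [Ph]
    rw [this, neg_zero, zpow_zero]
  have est := hEST s (wt R a b) w1 hs.dA ((R ^ c)⁻¹ / 4) hm (by rw [hc]; exact w2) hs.zero k
    hs.path (fun u => R ^ (-(Ph a b u)))
    (fun u hu I hO hA' => ⟨hs.sym u hu I hO hA', w3 u I⟩)
    (fun u => zpow_pos hR0 _) ((R ^ (c * k + 1))⁻¹) B (by positivity) hB0
    (by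
      intro u hu hka
      rw [hzero, mul_one]
      unfold Sys.ka at hka
      obtain ⟨I, _, hI⟩ := Finset.exists_ne_zero_of_sum_ne_zero hka
      have hI2 : ¬ (s.nx I u = s.d ∨ s.nx I u ∈ s.A) := by
        intro h
        rw [if_pos h, mul_zero] at hI
        exact hI rfl
      push Not at hI2
      obtain ⟨n1, n2⟩ := hI2
      have hO : (u, I) ∈ s.O := by
        by_contra hno
        unfold Sys.nx at n2
        rw [if_neg hno] at n2
        exact n2 hu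
      unfold Sys.nx at n1 n2
      rw [if_pos hO] at n1 n2
      have hex := hs.exit u hu I hO n2 n1
      rw [← hc] at hex
      rw [← zpow_natCast, ← zpow_neg]
      exact zpow_le_zpow_right₀ hR1 (by linarith))
    (by
      intro u hu
      rw [hzero, mul_one, hB, ← zpow_natCast]
      apply zpow_le_zpow_right₀ hR1
      have h3 := (abs_le.1 (p3 r u (hA hu))).1
      rw [← hc] at h3
      push_cast
      linarith) (T + 1) (by omega)
  have hcard : (s.A.card : ℝ) ≤ V := by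
    rw [hVdef]
    exact_mod_cast Finset.card_le_card hA
  have hmk : (k : ℝ) / ((R ^ c)⁻¹ / 4) ^ k = k * 4 ^ k * R ^ (c * k) := by
    rw [div_pow, inv_pow, ← pow_mul]
    field_simp
  rw [hmk] at est
  refine est.trans ?_
  have hT1 : (0 : ℝ) < ((T + 1 : ℕ) : ℝ) := by positivity
  have s1 : (s.A.card : ℝ) * (k * 4 ^ k * R ^ (c * k)) * ((R ^ (c * k + 1))⁻¹ + B / (T + 1 : ℕ)) ≤
      V * (k * 4 ^ k * R ^ (c * k)) * ((R ^ (c * k + 1))⁻¹ + B / (T + 1 : ℕ)) := by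
    gcongr
  refine s1.trans ?_
  have s2 : V * (k * 4 ^ k * R ^ (c * k)) * ((R ^ (c * k + 1))⁻¹ + B / (T + 1 : ℕ)) =
      Q / R + Q * R ^ (c * k) * B / (T + 1 : ℕ) := by
    rw [hQ, pow_succ]
    field_simp
  rw [s2]
  have s3 : Q / R ≤ η / 2 := by
    rw [div_le_iff₀ hR0, hR]
    field_simp
    linarith
  have s4 : Q * R ^ (c * k) * B / (T + 1 : ℕ) ≤ η / 2 := by
    rw [div_le_iff₀ hT1]
    rw [div_lt_iff₀ hη] at hT
    push_cast
    nlinarith
  linarith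

end Pool.H79.Drift
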