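import Pool.Agent.H79.Drift.Stmts

/-!
# Row GBD of board `drf9`: the Green function at `0` is at most `k / m ^ k`
-/

set_option autoImplicit false

namespace Pool.H79.Drift

open Pool.H79.Maze

theorem GBD (hchn : CHNStmt) (hmax : MAXStmt) : GBDStmt := by
  intro s ω hω hd m hm hmI h0 k hk T
  obtain ⟨n, hnk, hn⟩ := hk
  have h1 := hchn s ω hω hd m hm hmI T n 0 hn
  rw [if_pos h0] at h1
  have hg : 0 ≤ s.G ω dl T 0 := (hmax s ω hω T 0).1
  have hm1 : m ≤ 1 := by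
    have h2 := hω.2
    have h3 : ω Dir.N ≤ ∑ I : Dir, ω I :=
      Finset.single_le_sum (fun I _ => hω.1 I) (Finset.mem_univ Dir.N)
    rw [h2] at h3
    exact (hmI Dir.N).trans h3
  have h4 : m ^ k ≤ m ^ n := pow_le_pow_of_le_one hm.le hm1 hnk
  rw [le_div_iff₀ (pow_pos hm k)]
  have h5 : s.G ω dl T 0 * m ^ k ≤ s.G ω dl T 0 * m ^ n := mul_le_mul_of_nonneg_left h4 hg
  have h6 : (n : ℝ) ≤ k := by exact_mod_cast hnk
  nlinarith

end Pool.H79.Drift
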