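import Pool.Agent.H79.Drift.Stmts

/-!
# Row GRC of board `drf9`: first-step recursion for the Green function
-/

set_option autoImplicit false

namespace Pool.H79.Drift

open Pool.H79.Maze

namespace Sys

/-- `P` of a finite sum of functions. -/
theorem P_sum {ι : Type*} (s : Sys) (ω : Dir → ℝ) (F : Finset ι) (f : ι → ℤ × ℤ → ℝ)
    (u : ℤ × ℤ) : s.P ω (fun v => ∑ t ∈ F, f t v) u = ∑ t ∈ F, s.P ω (f t) u := by
  unfold P
  rw [Finset.sum_comm]
  refine Finset.sum_congr rfl fun I _ => ?_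
  by_cases h : s.nx I u ∈ s.A
  · simp only [h, if_true, Finset.mul_sum]
  · simp [h]

/-- `P (f + g) = P f + P g`. -/
theorem P_add (s : Sys) (ω : Dir → ℝ) (f g : ℤ × ℤ → ℝ) (u : ℤ × ℤ) :
    s.P ω (fun v => f v + g v) u = s.P ω f u + s.P ω g u := by
  unfold P
  rw [← Finset.sum_add_distrib]
  refine Finset.sum_congr rfl fun I _ => ?_
  by_cases h : s.nx I u ∈ s.A
  · simp only [h, if_true, mul_add]
  · simp [h]

end Sys

theorem GRC : GRCStmt := by
  intro s ω h T u
  have e : s.P ω (s.G ω h T) u = ∑ t ∈ Finset.range T, s.P ω ((s.P ω)^[t] h) u :=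
    Sys.P_sum s ω (Finset.range T) (fun t => (s.P ω)^[t] h) u
  rw [e]
  unfold Sys.G
  rw [Finset.sum_range_succ', add_comm]
  congr 1
  exact Finset.sum_congr rfl fun t _ => by rw [Function.iterate_succ_apply']

end Pool.H79.Drift
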