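import Pool.Agent.H79.Drift.Stmts

set_option autoImplicit false

namespace Pool.H79.Drift

open Pool.H79.Maze List

theorem INF : INFStmt := by
  intro w
  let W : ℕ → List Dir := fun n => Nat.rec [] (fun n u => u ++ (w n u.length ++ [Dir.N])) n
  have W0 : W 0 = [] := rfl
  have W1 : ∀ n, W (n + 1) = W n ++ (w n (W n).length ++ [Dir.N]) := fun n => rfl
  have hlen : ∀ n, n ≤ (W n).length := by
    intro n
    induction n with
    | zero => simp
    | succ n ih => rw [W1]; simp only [length_append, length_singleton]; omega
  have hpre : ∀ n m, n ≤ m → W n <+: W m := by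
    intro n m h
    induction h with
    | refl => exact List.prefix_refl _
    | step _ ih => rw [W1]; exact ih.trans (List.prefix_append _ _)
  let A : ℕ → Dir := fun i => (W (i + 1)).getD i Dir.N
  have hA : ∀ n i, i < (W n).length → A i = (W n).getD i Dir.N := by
    intro n i hin
    have hi1 : i < (W (i + 1)).length := hlen (i + 1)
    have key : ∀ a b, a ≤ b → i < (W a).length → (W b).getD i Dir.N = (W a).getD i Dir.N := by
      intro a b hab hia
      obtain ⟨t, ht⟩ := hpre a b hab
      rw [← ht, List.getD_append _ _ _ _ hia]
    rcases le_total (i + 1) n with h | h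
    · exact (key _ _ h hi1).symm
    · exact key _ _ h hin
  have hpos : ∀ (M : SimpleGraph (ℤ × ℤ)) (o d : ℤ × ℤ) (u : List Dir) (k : ℕ) ,
      (∀ i, i < u.length → A (k + i) = u.getD i Dir.N) →
      (sees M d u (pos M A o k) → ∃ n, pos M A o n = d) := by
    intro M o d u
    induction u with
    | nil => intro k _ h; exact absurd h (by simp [sees])
    | cons a u ih =>
      intro k hk hs
      have e : step M a (pos M A o k) = pos M A o (k + 1) := by
        have := hk 0 (by simp)
        simp only [add_zero, List.getD_cons_zero] at this
        rw [pos, this]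
      rw [sees, e] at hs
      rcases hs with hs | hs
      · exact ⟨k + 1, hs⟩
      · apply ih (k + 1) _ hs
        intro i hi
        have := hk (i + 1) (by simp only [length_cons]; omega)
        rw [List.getD_cons_succ] at this
        have e2 : k + 1 + i = k + (i + 1) := by ring
        rw [e2]; exact this
  refine ⟨A, W, W0, W1, fun M o d n hs => ?_⟩
  apply hpos M o d (W n) 0 _ hs
  intro i hi'
  rw [zero_add]
  exact hA n i hi'

end Pool.H79.Drift
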