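import Pool.Agent.H79.Drift.Stmts

/-!
# Drift theorem (MP_46d976_co): row REP (reversed Green function)
-/

set_option autoImplicit false

namespace Pool.H79.Drift

open Pool.H79.Maze

/-- iterated symmetry -/
theorem REP_iter (hS : SYMStmt) (s : Sys) (ω : Dir → ℝ) (π : ℤ × ℤ → ℝ) (hB : Bal s ω π) :
    ∀ (t : ℕ) (g h : ℤ × ℤ → ℝ),
      ∑ u ∈ s.A, π u * g u * (s.P ω)^[t] h u = ∑ u ∈ s.A, π u * h u * (s.P ω)^[t] g u := by
  intro t
  induction t with
  | zero =>
    intro g h
    simp only [Function.iterate_zero, id_eq]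
    exact Finset.sum_congr rfl fun u _ => by ring
  | succ t ih =>
    intro g h
    calc ∑ u ∈ s.A, π u * g u * (s.P ω)^[t + 1] h u
        = ∑ u ∈ s.A, π u * g u * s.P ω ((s.P ω)^[t] h) u := by
          simp only [Function.iterate_succ_apply']
      _ = ∑ u ∈ s.A, π u * (s.P ω)^[t] h u * s.P ω g u := hS s ω π hB g _
      _ = ∑ u ∈ s.A, π u * s.P ω g u * (s.P ω)^[t] h u :=
          Finset.sum_congr rfl fun u _ => by ring
      _ = ∑ u ∈ s.A, π u * h u * (s.P ω)^[t] (s.P ω g) u := ih (s.P ω g) h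
      _ = ∑ u ∈ s.A, π u * h u * (s.P ω)^[t + 1] g u := by
          simp only [Function.iterate_succ_apply]

/-- **REP**. -/
theorem REP (hS : SYMStmt) : REPStmt := by
  intro s ω π hB h0 h T
  unfold Sys.G
  rw [Finset.mul_sum]
  have e1 : ∀ t, π 0 * (s.P ω)^[t] h 0 = ∑ u ∈ s.A, π u * h u * (s.P ω)^[t] dl u := by
    intro t
    rw [← REP_iter hS s ω π hB t dl h, Finset.sum_eq_single_of_mem (0 : ℤ × ℤ) h0]
    · unfold dl
      rw [if_pos rfl]
      ring
    · intro u _ hu
      unfold dl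
      rw [if_neg hu]
      ring
  rw [Finset.sum_congr rfl fun t _ => e1 t, Finset.sum_comm]
  exact Finset.sum_congr rfl fun u _ => by rw [Finset.mul_sum]

end Pool.H79.Drift
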