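import Pool.Agent.H79.Drift.Stmts

set_option autoImplicit false

namespace Pool.H79.Drift

open Pool.H79.Maze

theorem SEC : SECStmt := by
  intro a b a' b' c c' hne
  set S : ℕ := a.natAbs + b.natAbs + a'.natAbs + b'.natAbs with hS
  set C : ℕ := c.natAbs + c'.natAbs with hC
  refine ⟨S * (1 + C) + 1, ?_⟩
  intro L hL v h1 h2 h3
  obtain ⟨x, y⟩ := v
  simp only [Ph] at h1 h2 h3 ⊢
  have hD : 1 ≤ |a * b' - a' * b| := by
    refine Int.one_le_abs ?_
    intro h
    exact hne (by linarith)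
  set s : ℤ := a * x + b * y with hs
  set t : ℤ := a' * x + b' * y with ht
  have hst : s + t ≤ L := by
    have : (a + a') * x + (b + b') * y = s + t := by rw [hs, ht]; ring
    linarith
  have hcc : (C : ℤ) = |c| + |c'| := by rw [hC]; push_cast; rfl
  have e1 := neg_abs_le c
  have e2 := neg_abs_le c'
  have e3 := abs_nonneg c
  have e4 := abs_nonneg c'
  have hL0 : (0 : ℤ) ≤ (L : ℤ) := Int.natCast_nonneg _
  have hs1 : |s| ≤ (L : ℤ) + C := by
    rw [abs_le]; constructor <;> linarith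
  have ht1 : |t| ≤ (L : ℤ) + C := by
    rw [abs_le]; constructor <;> linarith
  have hx : |x| ≤ (|b'| + |b|) * ((L : ℤ) + C) := by
    have h0 : (a * b' - a' * b) * x = b' * s - b * t := by rw [hs, ht]; ring
    calc |x| ≤ |a * b' - a' * b| * |x| := by nlinarith [abs_nonneg x]
      _ = |b' * s - b * t| := by rw [← abs_mul, h0]
      _ ≤ |b' * s| + |b * t| := abs_sub _ _
      _ = |b'| * |s| + |b| * |t| := by rw [abs_mul, abs_mul]
      _ ≤ |b'| * ((L : ℤ) + C) + |b| * ((L : ℤ) + C) := by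
          have p1 := mul_le_mul_of_nonneg_left hs1 (abs_nonneg b')
          have p2 := mul_le_mul_of_nonneg_left ht1 (abs_nonneg b)
          linarith
      _ = _ := by ring
  have hy : |y| ≤ (|a| + |a'|) * ((L : ℤ) + C) := by
    have h0 : (a * b' - a' * b) * y = a * t - a' * s := by rw [hs, ht]; ring
    calc |y| ≤ |a * b' - a' * b| * |y| := by nlinarith [abs_nonneg y]
      _ = |a * t - a' * s| := by rw [← abs_mul, h0]
      _ ≤ |a * t| + |a' * s| := abs_sub _ _
      _ = |a| * |t| + |a'| * |s| := by rw [abs_mul, abs_mul]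
      _ ≤ |a| * ((L : ℤ) + C) + |a'| * ((L : ℤ) + C) := by
          have p1 := mul_le_mul_of_nonneg_left ht1 (abs_nonneg a)
          have p2 := mul_le_mul_of_nonneg_left hs1 (abs_nonneg a')
          linarith
      _ = _ := by ring
  have hSS : (S : ℤ) = |a| + |b| + |a'| + |b'| := by rw [hS]; push_cast; rfl
  have hsum : |x| + |y| ≤ (S : ℤ) * ((L : ℤ) + C) := by
    rw [hSS]; linarith
  have hLZ : (S : ℤ) * (1 + C) + 1 ≤ (L : ℤ) := by exact_mod_cast hL
  have hS0 : (0 : ℤ) ≤ (S : ℤ) := Int.natCast_nonneg _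
  have hC0 : (0 : ℤ) ≤ (C : ℤ) := Int.natCast_nonneg _
  have hSC : (0 : ℤ) ≤ (S : ℤ) * C := mul_nonneg hS0 hC0
  have hL1 : (1 : ℤ) ≤ (L : ℤ) := by nlinarith
  have hfin : (S : ℤ) * ((L : ℤ) + C) ≤ (L : ℤ) ^ 2 := by nlinarith
  have : ((x.natAbs + y.natAbs : ℕ) : ℤ) ≤ ((L ^ 2 : ℕ) : ℤ) := by
    push_cast
    linarith
  exact_mod_cast this

end Pool.H79.Drift
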