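import Pool.Agent.H79.Drift.Stmts

/-!
# Row SYM of board drf9: reversibility
-/

set_option autoImplicit false

namespace Pool.H79.Drift

open Pool.H79.Maze

/-- the involution of the pairs (point, letter) -/
noncomputable def symPhi (s : Sys) (p : (ℤ × ℤ) × Dir) : (ℤ × ℤ) × Dir :=
  if p ∈ s.O ∧ p.1 + p.2.vec ∈ s.A then (p.1 + p.2.vec, opp p.2) else p

theorem SYM : SYMStmt := by
  intro s ω π hb g h
  have hvec : ∀ I : Dir, I.vec + (opp I).vec = 0 := by
    intro I
    cases I <;> rfl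
  have hopp : ∀ I : Dir, opp (opp I) = I := by
    intro I
    cases I <;> rfl
  have hback : ∀ (u : ℤ × ℤ) (I : Dir), u + I.vec + (opp I).vec = u := by
    intro u I
    rw [add_assoc, hvec, add_zero]
  have hcond : ∀ p : (ℤ × ℤ) × Dir, p.1 ∈ s.A → p ∈ s.O → p.1 + p.2.vec ∈ s.A →
      (p.1 + p.2.vec, opp p.2) ∈ s.O ∧
        (p.1 + p.2.vec, opp p.2).1 + (p.1 + p.2.vec, opp p.2).2.vec ∈ s.A := by
    intro p h1 h2 h3
    refine ⟨(hb p.1 h1 p.2 h2 h3).1, ?_⟩
    show p.1 + p.2.vec + (opp p.2).vec ∈ s.A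
    rw [hback]
    exact h1
  have hmem : ∀ p ∈ s.A ×ˢ (Finset.univ : Finset Dir), symPhi s p ∈ s.A ×ˢ (Finset.univ : Finset Dir) := by
    intro p hp
    rw [Finset.mem_product] at hp
    unfold symPhi
    split_ifs with hc
    · exact Finset.mem_product.2 ⟨hc.2, Finset.mem_univ _⟩
    · exact Finset.mem_product.2 hp
  have hinv : ∀ p ∈ s.A ×ˢ (Finset.univ : Finset Dir), symPhi s (symPhi s p) = p := by
    intro p hp
    rw [Finset.mem_product] at hp
    by_cases hc : p ∈ s.O ∧ p.1 + p.2.vec ∈ s.A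
    · have e1 : symPhi s p = (p.1 + p.2.vec, opp p.2) := by
        unfold symPhi
        rw [if_pos hc]
      rw [e1]
      have h2 := hcond p hp.1 hc.1 hc.2
      unfold symPhi
      rw [if_pos h2]
      show (p.1 + p.2.vec + (opp p.2).vec, opp (opp p.2)) = p
      rw [hback, hopp]
    · have e1 : symPhi s p = p := by
        unfold symPhi
        rw [if_neg hc]
      rw [e1, e1]
  have key : ∀ p ∈ s.A ×ˢ (Finset.univ : Finset Dir),
      π p.1 * g p.1 * (ω p.2 * (if s.nx p.2 p.1 ∈ s.A then h (s.nx p.2 p.1) else 0)) =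
      π (symPhi s p).1 * h (symPhi s p).1 * (ω (symPhi s p).2 *
        (if s.nx (symPhi s p).2 (symPhi s p).1 ∈ s.A then
          g (s.nx (symPhi s p).2 (symPhi s p).1) else 0)) := by
    intro p hp
    rw [Finset.mem_product] at hp
    by_cases hc : p ∈ s.O ∧ p.1 + p.2.vec ∈ s.A
    · have e1 : symPhi s p = (p.1 + p.2.vec, opp p.2) := by
        unfold symPhi
        rw [if_pos hc]
      obtain ⟨h2, h3⟩ := hcond p hp.1 hc.1 hc.2
      rw [e1]
      have n1 : s.nx p.2 p.1 = p.1 + p.2.vec := by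
        unfold Sys.nx
        rw [if_pos hc.1]
      have n2 : s.nx (opp p.2) (p.1 + p.2.vec) = p.1 := by
        unfold Sys.nx
        rw [if_pos h2, hback]
      show _ = π (p.1 + p.2.vec) * h (p.1 + p.2.vec) * (ω (opp p.2) *
        (if s.nx (opp p.2) (p.1 + p.2.vec) ∈ s.A then g (s.nx (opp p.2) (p.1 + p.2.vec)) else 0))
      rw [n1, n2, if_pos hc.2, if_pos hp.1]
      have hbal := (hb p.1 hp.1 p.2 hc.1 hc.2).2
      calc π p.1 * g p.1 * (ω p.2 * h (p.1 + p.2.vec)) =
            (π p.1 * ω p.2) * (g p.1 * h (p.1 + p.2.vec)) := by ring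
        _ = (π (p.1 + p.2.vec) * ω (opp p.2)) * (g p.1 * h (p.1 + p.2.vec)) := by rw [hbal]
        _ = _ := by ring
    · have e1 : symPhi s p = p := by
        unfold symPhi
        rw [if_neg hc]
      rw [e1]
      by_cases hO : p ∈ s.O
      · have hA : p.1 + p.2.vec ∉ s.A := fun hA => hc ⟨hO, hA⟩
        have n1 : s.nx p.2 p.1 = p.1 + p.2.vec := by
          unfold Sys.nx
          rw [if_pos hO]
        rw [n1, if_neg hA, if_neg hA, mul_zero, mul_zero, mul_zero]
      · have n1 : s.nx p.2 p.1 = p.1 := by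
          unfold Sys.nx
          rw [if_neg hO]
        rw [n1, if_pos hp.1, if_pos hp.1]
        ring
  have exp : ∀ f k : ℤ × ℤ → ℝ, ∑ u ∈ s.A, π u * f u * s.P ω k u =
      ∑ p ∈ s.A ×ˢ (Finset.univ : Finset Dir),
        π p.1 * f p.1 * (ω p.2 * (if s.nx p.2 p.1 ∈ s.A then k (s.nx p.2 p.1) else 0)) := by
    intro f k
    rw [Finset.sum_product]
    refine Finset.sum_congr rfl fun u _ => ?_
    unfold Sys.P
    rw [Finset.mul_sum]
  rw [exp g h, exp h g]
  exact Finset.sum_bij' (fun p _ => symPhi s p) (fun p _ => symPhi s p) hmem hmem hinv hinv key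

end Pool.H79.Drift
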