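import Pool.Agent.H79.Drift.Stmts

set_option autoImplicit false

namespace Pool.H79.Drift

open Pool.H79.Maze

theorem TRJ (hP : PHIStmt) : TRJStmt := by
  intro M d a b L w
  obtain ⟨hadd, hvec, _⟩ := hP a b
  induction w with
  | nil =>
    intro o _ _ _
    refine ⟨Relation.ReflTransGen.refl, ?_⟩
    simp [go]
  | cons I w ih =>
    intro o hB hs hL
    have hs' : ¬ (step M I o = d) ∧ ¬ sees M d w (step M I o) := by
      simpa [sees] using hs
    have hc : (0 : ℤ) ≤ (cc a b : ℤ) := Int.natCast_nonneg _
    have hw : (0 : ℤ) ≤ (w.length : ℤ) := Int.natCast_nonneg _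
    have hcw : (0 : ℤ) ≤ (cc a b : ℤ) * (w.length : ℤ) := mul_nonneg hc hw
    have hlen : ((I :: w).length : ℤ) = (w.length : ℤ) + 1 := by simp
    rw [hlen] at hL ⊢
    have hL' : Ph a b o + cc a b * (w.length : ℤ) + cc a b ≤ L := by
      have : (cc a b : ℤ) * ((w.length : ℤ) + 1) = cc a b * (w.length : ℤ) + cc a b := by ring
      linarith
    have hv : Ph a b I.vec ≤ cc a b := (abs_le.mp (hvec I)).2
    have hst : Ph a b (step M I o) ≤ Ph a b o + cc a b := by
      unfold step
      split_ifs with h
      · rw [hadd]; linarith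
      · linarith
    have hih := ih (step M I o) hB hs'.2 (by linarith)
    have hgo : go M (I :: w) o = go M w (step M I o) := rfl
    rw [hgo]
    refine ⟨?_, ?_⟩
    · rcases step_adj (M := M) I o with e | e
      · have h1 := hih.1
        rw [e] at h1
        rw [e]
        exact h1
      · exact Relation.ReflTransGen.head ⟨e, hs'.1, by linarith⟩ hih.1
    · have : (cc a b : ℤ) * ((w.length : ℤ) + 1) = cc a b * (w.length : ℤ) + cc a b := by ring
      rw [this]
      linarith [hih.2]

end Pool.H79.Drift
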