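import Pool.Agent.H79.Drift.Stmts

set_option autoImplicit false

namespace Pool.H79.Drift

open Pool.H79.Maze

theorem WFS (hE : EXSStmt) (hA : AVGStmt) (hX : BOXStmt) (hD : PTBStmt) : WFSStmt := by
  intro a b k r
  have hF : {s : Sys | Adm a b k s ∧ s.A ⊆ Box r}.Finite := by
    refine (hX r k).subset ?_
    rintro s ⟨h1, h2⟩
    exact ⟨h2, h1.sub, hD a b k s h1⟩
  have hη : (0 : ℝ) < 1 / ((hF.toFinset.card : ℝ) + 1) := by positivity
  obtain ⟨ω, T, hω, hb⟩ := hE a b k r _ hη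
  obtain ⟨w, hw⟩ := hA ω hω T {s : Sys | Adm a b k s ∧ s.A ⊆ Box r} hF (fun _ => 0) (by
    have h1 : ∑ s ∈ hF.toFinset, s.bb ω T 0
        ≤ ∑ _s ∈ hF.toFinset, 1 / ((hF.toFinset.card : ℝ) + 1) := by
      refine Finset.sum_le_sum (fun s hs => ?_)
      have hs' : Adm a b k s ∧ s.A ⊆ Box r := by simpa using hs
      exact hb s hs'.1 hs'.2
    refine lt_of_le_of_lt h1 ?_
    rw [Finset.sum_const, nsmul_eq_mul, mul_one_div, div_lt_one (by positivity)]
    linarith)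
  exact ⟨w, fun s h1 h2 => hw s ⟨h1, h2⟩⟩

end Pool.H79.Drift
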