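import Pool.Agent.H79.Drift.Stmts

set_option autoImplicit false

namespace Pool.H79.Drift

open Pool.H79.Maze

theorem WTL (h : PHIStmt) : WTLStmt := by
  intro a b R hR
  obtain ⟨hadd, hcc, -⟩ := h a b
  have hR0 : 0 < R := lt_of_lt_of_le one_pos hR
  set e : Dir → ℝ := fun I => R ^ (-(max (Ph a b I.vec) 0)) with he
  have epos : ∀ I, 0 < e I := fun I => zpow_pos hR0 _
  have ele : ∀ I, e I ≤ 1 := fun I => by
    apply zpow_le_one_of_nonpos₀ hR
    have := le_max_right (Ph a b I.vec) 0
    omega
  have ege : ∀ I, (R ^ cc a b)⁻¹ ≤ e I := fun I => by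
    have h1 : (R ^ cc a b)⁻¹ = R ^ (-(cc a b : ℤ)) := by
      rw [zpow_neg, zpow_natCast]
    rw [h1]
    apply zpow_le_zpow_right₀ hR
    have h2 := hcc I
    have h3 := (abs_le.1 h2).2
    have h4 : max (Ph a b I.vec) 0 ≤ (cc a b : ℤ) := max_le h3 (by positivity)
    omega
  set S : ℝ := ∑ J : Dir, e J with hS
  have Spos : 0 < S := by
    rw [hS, sum_dir]
    have := epos .N
    have := epos .S
    have := epos .E
    have := epos .W
    linarith
  have S4 : S ≤ 4 := by
    rw [hS, sum_dir]
    have := ele .N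
    have := ele .S
    have := ele .E
    have := ele .W
    linarith
  have hw : ∀ I, wt R a b I = e I / S := fun I => rfl
  refine ⟨⟨fun I => ?_, ?_⟩, fun I => ?_, fun u I => ?_⟩
  · rw [hw]
    exact div_nonneg (epos I).le Spos.le
  · have : ∑ I : Dir, wt R a b I = ∑ I : Dir, e I / S := Finset.sum_congr rfl fun I _ => hw I
    rw [this, ← Finset.sum_div, ← hS]
    exact div_self Spos.ne'
  · rw [hw]
    calc (R ^ cc a b)⁻¹ / 4 ≤ e I / 4 := by
          have := ege I
          linarith
      _ ≤ e I / S := div_le_div_of_nonneg_left (epos I).le Spos S4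
  · have hopp : Ph a b (opp I).vec = - Ph a b I.vec := by
      cases I <;> simp [opp, Dir.vec, Ph]
    rw [hw, hw, mul_div_assoc', mul_div_assoc', he]
    simp only
    rw [← zpow_add₀ hR0.ne', ← zpow_add₀ hR0.ne', hopp, hadd]
    congr 2
    have : max (-Ph a b I.vec) 0 = max (Ph a b I.vec) 0 - Ph a b I.vec := by
      rcases le_total (Ph a b I.vec) 0 with h0 | h0
      · rw [max_eq_right h0, max_eq_left (by omega)]
        ring
      · rw [max_eq_left h0, max_eq_right (by omega)]
        ring
    rw [this]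
    ring

end Pool.H79.Drift
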