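import Pool.Agent.H79.Drift.Asm
import Pool.Agent.H79.Drift.INF
import Pool.Agent.H79.Drift.AVG
import Pool.Agent.H79.Drift.BRD
import Pool.Agent.H79.Drift.CHN
import Pool.Agent.H79.Drift.EST
import Pool.Agent.H79.Drift.EXS
import Pool.Agent.H79.Drift.GBD
import Pool.Agent.H79.Drift.GRC
import Pool.Agent.H79.Drift.REP
import Pool.Agent.H79.Drift.SEC
import Pool.Agent.H79.Drift.SYM
import Pool.Agent.H79.Drift.TRJ
import Pool.Agent.H79.Drift.WFS
import Pool.Agent.H79.Drift.WTL
import Pool.Agent.H79.Drift.BBD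
import Pool.Agent.H45.Drift.PTB
import Pool.Agent.H65.Drift.BOX
import Pool.Agent.H65.Drift.MAX

set_option autoImplicit false

namespace Pool.H79.Drift

open Pool.H79.Maze

theorem PHI79 : PHIStmt := by
  intro a b
  refine ⟨fun u v => by simp only [Ph, Prod.fst_add, Prod.snd_add]; ring, fun I => ?_,
    fun r u hu => ?_⟩
  · have h1 : |a| ≤ cc a b := by
      rw [Int.abs_eq_natAbs]; unfold cc; push_cast; omega
    have h2 : |b| ≤ cc a b := by
      rw [Int.abs_eq_natAbs]; unfold cc; push_cast; omega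
    cases I <;> simp only [Ph, Dir.vec, mul_zero, mul_one, mul_neg, zero_add, add_zero, abs_neg] <;>
      assumption
  · have h1 : |a| ≤ cc a b := by
      rw [Int.abs_eq_natAbs]; unfold cc; push_cast; omega
    have h2 : |b| ≤ cc a b := by
      rw [Int.abs_eq_natAbs]; unfold cc; push_cast; omega
    simp only [Box, Finset.mem_product, Finset.mem_Icc] at hu
    have h3 : |u.1| ≤ r := abs_le.2 hu.1
    have h4 : |u.2| ≤ r := abs_le.2 hu.2
    have h5 : |a * u.1| ≤ cc a b * r := by
      rw [abs_mul]; exact mul_le_mul h1 h3 (abs_nonneg _) (by positivity)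
    have h6 : |b * u.2| ≤ cc a b * r := by
      rw [abs_mul]; exact mul_le_mul h2 h4 (abs_nonneg _) (by positivity)
    calc |Ph a b u| ≤ |a * u.1| + |b * u.2| := abs_add_le _ _
      _ ≤ 2 * cc a b * r := by linarith

theorem MON79 : MONStmt := by
  intro s ω hω
  have hm : ∀ h h' : ℤ × ℤ → ℝ, (∀ u, h u ≤ h' u) → ∀ u, s.P ω h u ≤ s.P ω h' u := by
    intro h h' hh u
    unfold Sys.P
    apply Finset.sum_le_sum
    intro I _
    apply mul_le_mul_of_nonneg_left _ (hω.1 I)
    split_ifs
    · exact hh _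
    · exact le_rfl
  have h0 : ∀ h : ℤ × ℤ → ℝ, (∀ u, 0 ≤ h u) → ∀ u, 0 ≤ s.P ω h u := by
    intro h hh u
    unfold Sys.P
    apply Finset.sum_nonneg
    intro I _
    apply mul_nonneg (hω.1 I)
    split_ifs
    · exact hh _
    · exact le_rfl
  refine ⟨hm, fun u => ⟨?_, ?_⟩, fun h hh T => ?_, fun T => ?_⟩
  · unfold Sys.ka
    apply Finset.sum_nonneg
    intro I _
    apply mul_nonneg (hω.1 I)
    split_ifs <;> norm_num
  · unfold Sys.ka
    refine le_trans ?_ hω.2.le
    apply Finset.sum_le_sum
    intro I _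
    have := hω.1 I
    split_ifs <;> linarith
  · induction T with
    | zero => exact hh
    | succ T ih =>
      intro u
      rw [Function.iterate_succ_apply']
      exact h0 _ ih u
  · induction T with
    | zero =>
      intro u
      simp only [zero_add, Function.iterate_one, Function.iterate_zero, id]
      unfold Sys.P
      refine le_trans ?_ hω.2.le
      apply Finset.sum_le_sum
      intro I _
      have := hω.1 I
      split_ifs <;> linarith
    | succ T ih =>
      intro u
      have e1 := Function.iterate_succ_apply' (s.P ω) (T + 1) (fun _ => (1 : ℝ))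
      have e2 := Function.iterate_succ_apply' (s.P ω) T (fun _ => (1 : ℝ))
      have := hm _ _ ih u
      rw [← e1, ← e2] at this
      exact this

theorem WFS79 : WFSStmt :=
  have hMax : MAXStmt := MAX GRC MON79
  have hChn : CHNStmt := CHN GRC hMax
  have hEst : ESTStmt := EST (BBD GRC) (REP SYM) MON79 hMax (GBD hChn hMax)
  WFS (EXS hEst (WTL PHI79) PHI79) AVG BOX Pool.H45.Drift.ptb

theorem main (g : ℕ → ℕ) :
    ∃ A : ℕ → Dir, ∀ M : SimpleGraph (ℤ × ℤ), IsBoard M → ∀ o d, M.Reachable o d →
    (Sector M d o ∨ Growth g M d o) → ∃ n, pos M A o n = d :=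
  FIN (WRD WFS79 (BRD PHI79)) INF (TRJ PHI79) SEC g

end Pool.H79.Drift
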