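import Pool.Agent.H79.Drift.Stmts

/-!
# Row PHI of the drift board (MP_46d976_co)
-/

set_option autoImplicit false

namespace Pool.H79.Drift

open Pool.H79.Maze

theorem PHI : PHIStmt := by
  intro a b
  refine ⟨?_, ?_, ?_⟩
  · intro u v
    simp only [Ph, Prod.fst_add, Prod.snd_add]
    ring
  · intro I
    have h1 : (a.natAbs : ℤ) ≤ cc a b := by
      exact_mod_cast (le_max_left _ _).trans (le_max_left _ 1)
    have h2 : (b.natAbs : ℤ) ≤ cc a b := by
      exact_mod_cast (le_max_right _ _).trans (le_max_left _ 1)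
    rw [Int.natCast_natAbs] at h1 h2
    cases I
    · simpa [Ph, Dir.vec] using h2
    · simpa [Ph, Dir.vec] using h2
    · simpa [Ph, Dir.vec] using h1
    · simpa [Ph, Dir.vec] using h1
  · intro r u hu
    have h1 : (a.natAbs : ℤ) ≤ cc a b := by
      exact_mod_cast (le_max_left _ _).trans (le_max_left _ 1)
    have h2 : (b.natAbs : ℤ) ≤ cc a b := by
      exact_mod_cast (le_max_right _ _).trans (le_max_left _ 1)
    rw [Int.natCast_natAbs] at h1 h2
    have h0 : (0 : ℤ) ≤ cc a b := by positivity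
    simp only [Box, Finset.mem_product, Finset.mem_Icc] at hu
    obtain ⟨⟨hx1, hx2⟩, hy1, hy2⟩ := hu
    have hx : |u.1| ≤ (r : ℤ) := abs_le.2 ⟨hx1, hx2⟩
    have hy : |u.2| ≤ (r : ℤ) := abs_le.2 ⟨hy1, hy2⟩
    have e1 : |a * u.1| ≤ (cc a b : ℤ) * r := by
      rw [abs_mul]; exact mul_le_mul h1 hx (abs_nonneg _) h0
    have e2 : |b * u.2| ≤ (cc a b : ℤ) * r := by
      rw [abs_mul]; exact mul_le_mul h2 hy (abs_nonneg _) h0
    calc |Ph a b u| = |a * u.1 + b * u.2| := rfl
      _ ≤ |a * u.1| + |b * u.2| := abs_add_le _ _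
      _ ≤ (cc a b : ℤ) * r + (cc a b : ℤ) * r := add_le_add e1 e2
      _ = 2 * cc a b * r := by ring

end Pool.H79.Drift
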