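import Pool.Agent.H79.Drift.Defs

/-!
# Drift theorem (MP_46d976_co): statements of the rows of board `drf9`

Row `XXX` is `def XXXStmt : Prop`; the row theorem is `theorem XXX : XXXStmt`, or with the rows it
uses as hypotheses, in the file `Pool/Agent/H79/Drift/XXX.lean`, namespace `Pool.H79.Drift`.
(`sum_dir` of the definitions file writes a sum over `Dir` as four summands.)
-/

set_option autoImplicit false

namespace Pool.H79.Drift

open Pool.H79.Maze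

/-- detailed balance along the open edges between alive points -/
def Bal (s : Sys) (ω : Dir → ℝ) (π : ℤ × ℤ → ℝ) : Prop :=
  ∀ u ∈ s.A, ∀ I : Dir, (u, I) ∈ s.O → u + I.vec ∈ s.A →
    (u + I.vec, opp I) ∈ s.O ∧ π u * ω I = π (u + I.vec) * ω (opp I)

/-! ## One system -/

/-- GRC. First-step recursion. Proof: `Finset.sum_range_succ'`, `Function.iterate_succ_apply'`;
`P` of a finite sum of functions is the sum of the `P`'s (prove `P (fun v => ∑ t ∈ F, f t v) u =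
∑ t ∈ F, P (f t) u` by `Finset.mul_sum`, `Finset.sum_comm`). -/
def GRCStmt : Prop := ∀ (s : Sys) (ω : Dir → ℝ) (h : ℤ × ℤ → ℝ) (T : ℕ) (u : ℤ × ℤ),
  s.G ω h (T + 1) u = h u + s.P ω (s.G ω h T) u

/-- BBD. Proof: `bb (T+1) u = ka u + P (bb T) u` (compare the terms: `d ∉ A`), induction on `T`, GRC,
`Function.iterate_succ_apply'`, `P (f + g) = P f + P g`. -/
def BBDStmt : Prop := ∀ (s : Sys) (ω : Dir → ℝ), s.d ∉ s.A → ∀ (T : ℕ) (u : ℤ × ℤ),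
  s.bb ω T u = s.G ω (s.ka ω) T u + (s.P ω)^[T] (fun _ => 1) u

/-- SYM. `P` is symmetric with respect to `π`. Proof: both sides are sums over `u ∈ A` and letters
`I`. If `(u, I) ∉ O` then `nx I u = u ∈ A` and the two terms agree. The other nonzero terms are
indexed by `E = {(u, I) | u ∈ A, (u, I) ∈ O, u + vec I ∈ A}`; the map
`(u, I) ↦ (u + vec I, opp I)` is an involution of `E` (`vec (opp I) = - vec I`, `opp (opp I) = I`)
which exchanges the terms by `Bal` (`Finset.sum_nbij'` or `Finset.sum_bij'`). -/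
def SYMStmt : Prop := ∀ (s : Sys) (ω : Dir → ℝ) (π : ℤ × ℤ → ℝ), Bal s ω π →
  ∀ g h : ℤ × ℤ → ℝ,
  ∑ u ∈ s.A, π u * g u * s.P ω h u = ∑ u ∈ s.A, π u * h u * s.P ω g u

/-- REP. Reversed Green function. Proof: by SYM and induction on `t`,
`∑ u ∈ A, π u * g u * P^t h u = ∑ u ∈ A, π u * P^t g u * h u`; take `g = dl`, sum over `t < T`. -/
def REPStmt : Prop := ∀ (s : Sys) (ω : Dir → ℝ) (π : ℤ × ℤ → ℝ), Bal s ω π →
  (0 : ℤ × ℤ) ∈ s.A → ∀ (h : ℤ × ℤ → ℝ) (T : ℕ),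
  π 0 * s.G ω h T 0 = ∑ u ∈ s.A, π u * h u * s.G ω dl T u

/-- MON. Elementary properties of `P`. The last two by induction on `T`. -/
def MONStmt : Prop := ∀ (s : Sys) (ω : Dir → ℝ), IsLaw ω →
  (∀ h h' : ℤ × ℤ → ℝ, (∀ u, h u ≤ h' u) → ∀ u, s.P ω h u ≤ s.P ω h' u) ∧
  (∀ u, 0 ≤ s.ka ω u ∧ s.ka ω u ≤ 1) ∧
  (∀ h : ℤ × ℤ → ℝ, (∀ u, 0 ≤ h u) → ∀ (T : ℕ) u, 0 ≤ (s.P ω)^[T] h u) ∧
  (∀ (T : ℕ) u, (s.P ω)^[T + 1] (fun _ => 1) u ≤ (s.P ω)^[T] (fun _ => 1) u)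

/-- MAX. The Green function `G dl T` is nonnegative, nondecreasing in `T` and maximal at `0`.
Proof of the last: induction on `T`; for `u ≠ 0`, by GRC `G dl (T+1) u = 0 + P (G dl T) u`, each
term is at most `ω I * G dl T 0`, and `∑ ω I = 1`; `G dl T 0 ≤ G dl (T+1) 0`. (MON) -/
def MAXStmt : Prop := ∀ (s : Sys) (ω : Dir → ℝ), IsLaw ω → ∀ (T : ℕ) (u : ℤ × ℤ),
  0 ≤ s.G ω dl T u ∧ s.G ω dl T u ≤ s.G ω dl (T + 1) u ∧ s.G ω dl T u ≤ s.G ω dl T 0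

/-- CHN. Chain of points. Proof: induction on `n` for all `u`. `n = 0`: `u = d ∉ A`, the left side
is `0`. `n + 1`: with `g = G dl T 0` and the letter `J` of the path, by MAX and GRC
`G dl T u ≤ G dl (T+1) u = dl u + ∑ I, ω I * (if nx I u ∈ A then G dl T (nx I u) else 0)`; the term
`J` is at most `ω J * (n + (1 - m^n) g)` by induction (`nx J u = u + vec J`), the others at most
`ω I * g`; so the sum is at most `1 + n + g - ω J * m^n * g ≤ n + 1 + (1 - m^(n+1)) g`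
(`ω J ≤ 1`). -/
def CHNStmt : Prop := ∀ (s : Sys) (ω : Dir → ℝ), IsLaw ω → s.d ∉ s.A → ∀ m : ℝ, 0 < m →
  (∀ I, m ≤ ω I) → ∀ (T n : ℕ) (u : ℤ × ℤ), s.Pth n u →
  (if u ∈ s.A then s.G ω dl T u else 0) ≤ n + (1 - m ^ n) * s.G ω dl T 0

/-- GBD. Proof: CHN at `u = 0` gives `m^n * G ≤ n`; `m^k ≤ m^n` since `m ≤ ω I ≤ 1`. -/
def GBDStmt : Prop := ∀ (s : Sys) (ω : Dir → ℝ), IsLaw ω → s.d ∉ s.A → ∀ m : ℝ, 0 < m →
  (∀ I, m ≤ ω I) → (0 : ℤ × ℤ) ∈ s.A → ∀ k : ℕ, (∃ n ≤ k, s.Pth n 0) → ∀ T : ℕ,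
  s.G ω dl T 0 ≤ k / m ^ k

/-- EST. The main estimate. Proof: BBD at `0`. Exit part: by REP with `h = ka`, MAX, `0 ≤ ka ≤ 1`
(MON) and GBD, `G ka T 0 ≤ ∑ u ∈ A, (π u / π 0) * ka u * G dl T u ≤ |A| * ε * (k / m^k)` (terms with
`ka u = 0` vanish). Survival part: `P^t 1 0` is nonincreasing in `t` (MON), so `T * P^T 1 0 ≤
G 1 T 0`, and `G 1 T 0 ≤ |A| * B * (k / m^k)` by REP with `h = 1`. -/
def ESTStmt : Prop := ∀ (s : Sys) (ω : Dir → ℝ), IsLaw ω → s.d ∉ s.A → ∀ m : ℝ, 0 < m →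
  (∀ I, m ≤ ω I) → (0 : ℤ × ℤ) ∈ s.A → ∀ k : ℕ, (∃ n ≤ k, s.Pth n 0) →
  ∀ π : ℤ × ℤ → ℝ, Bal s ω π → (∀ u, 0 < π u) → ∀ ε B : ℝ, 0 ≤ ε → 0 ≤ B →
  (∀ u ∈ s.A, s.ka ω u ≠ 0 → π u ≤ ε * π 0) → (∀ u ∈ s.A, π u ≤ B * π 0) →
  ∀ T : ℕ, 1 ≤ T → s.bb ω T 0 ≤ s.A.card * (k / m ^ k) * (ε + B / T)

/-! ## The weights -/

/-- PHI. Bounds for `Ph`. -/
def PHIStmt : Prop := ∀ a b : ℤ,
  (∀ u v : ℤ × ℤ, Ph a b (u + v) = Ph a b u + Ph a b v) ∧
  (∀ I : Dir, |Ph a b I.vec| ≤ cc a b) ∧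
  (∀ (r : ℕ) (u : ℤ × ℤ), u ∈ Box r → |Ph a b u| ≤ 2 * cc a b * r)

/-- WTL. The weights. Proof: `0 < R ^ (-(max x 0)) ≤ 1` and `≥ R ^ (-cc)` for `x = Ph a b I.vec`
(`|x| ≤ cc`, PHI), so the sum of the four is in `(0, 4]`; `max x 0 = max (-x) 0 + x` gives the
balance (the powers are `zpow`; `Ph a b (vec (opp I)) = - Ph a b (vec I)`). -/
def WTLStmt : Prop := ∀ (a b : ℤ) (R : ℝ), 1 ≤ R →
  IsLaw (wt R a b) ∧
  (∀ I : Dir, (R ^ cc a b)⁻¹ / 4 ≤ wt R a b I) ∧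
  (∀ (u : ℤ × ℤ) (I : Dir), R ^ (-(Ph a b u)) * wt R a b I =
    R ^ (-(Ph a b (u + I.vec))) * wt R a b (opp I))

/-- EXS. Uniform estimate for the admissible systems in a box. Proof: let `c = cc a b`,
`V = (Box r).card`; take `R = V * k * 4^k * 2 / η + 1`, `ω = wt R a b`, `π u = R ^ (-(Ph a b u))`,
`m = (R^c)⁻¹ / 4`, `ε = (R^(c*k+1))⁻¹`, `B = R^(2*c*r)`, and apply EST:
`ka u ≠ 0` gives a letter `I` with `nx I u ∉ A`, `nx I u ≠ d`, so `(u, I) ∈ O` and by `Adm.exit`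
`c k + 1 ≤ Ph u`, `π u ≤ ε`; `π 0 = 1`; `π u ≤ B` by PHI. `k / m^k * ε = k * 4^k / R`. Then take `T`
large: `V * k * 4^k * R^(c*k) * B / T ≤ η / 2`. (`Bal` from `Adm.sym` and WTL.) -/
def EXSStmt : Prop := ∀ (a b : ℤ) (k r : ℕ) (η : ℝ), 0 < η →
  ∃ (ω : Dir → ℝ) (T : ℕ), IsLaw ω ∧
    ∀ s : Sys, Adm a b k s → s.A ⊆ Box r → s.bb ω T 0 ≤ η

/-! ## Words -/

/-- AVG. Averaging over the letters. Proof: induction on `T` for all `F, u`. `T = 0`: the sum is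
`|F| < 1`, so `F = ∅`. `T + 1`: the sum is `∑ I, ω I * c I` with `c I = ∑ i ∈ F, (if nx = d then 0
else if nx ∈ A then bb T (nx) else 1)`; since `∑ ω I = 1`, some `c I < 1`; then no `i ∈ F` is in the
third case (all terms are nonnegative), apply the induction hypothesis to the `i ∈ F` in the second
case, with the starting points `nx I (u i)`; the word is `I :: w`. -/
def AVGStmt : Prop := ∀ (ω : Dir → ℝ), IsLaw ω → ∀ (T : ℕ) (F : Set Sys) (hF : F.Finite)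
  (u : Sys → ℤ × ℤ), ∑ s ∈ hF.toFinset, s.bb ω T (u s) < 1 →
  ∃ w : List Dir, ∀ s ∈ F, s.good w (u s)

/-- BOX. Finitely many systems. -/
def BOXStmt : Prop := ∀ r k : ℕ,
  {s : Sys | s.A ⊆ Box r ∧ (∀ p ∈ s.O, p.1 ∈ s.A) ∧ s.d ∈ Box k}.Finite

/-- PTB. The destination of an admissible system. Proof: by induction on `n`, `Pth n u` implies
`|d.1 - u.1| ≤ n` and `|d.2 - u.2| ≤ n`. -/
def PTBStmt : Prop := ∀ (a b : ℤ) (k : ℕ) (s : Sys), Adm a b k s → s.d ∈ Box k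

/-- WFS. One word for all admissible systems in a box. Proof: the set `F` of the admissible systems
with `A ⊆ Box r` is finite (BOX, PTB); apply EXS with `η = 1 / (|F| + 1)` and AVG. -/
def WFSStmt : Prop := ∀ (a b : ℤ) (k r : ℕ), ∃ w : List Dir,
  ∀ s : Sys, Adm a b k s → s.A ⊆ Box r → s.good w 0

/-! ## Boards -/

/-- BRD. From boards to systems. Proof (classical): `A = {v ∈ Box r | Basin M d a b L o (o + v)}`,
`O = {(u, I) | u ∈ A, M.Adj (o + u) (o + u + vec I)}`, destination `d - o`.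
`d - o ∉ A`: the last step of a `Basin` path does not end at `d`, and `o ≠ d`. `exit`: if
`o + u + vec I` is adjacent, different from `d` and not in the basin then `L < Ph (o + u + vec I) ≤
Ph o + Ph u + c`. `path`: by induction on `Near M d n p`: if `Basin o p` and `Ph p + c n ≤ L` then
`∃ m ≤ n, Pth m (p - o)` (if the next point `q` is not `d`, it is in the basin). The last clause by
induction on `w`: `step M I (o + u) = o + nx I u` for `u ∈ A`. -/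
def BRDStmt : Prop := ∀ (a b : ℤ) (k r n : ℕ) (M : SimpleGraph (ℤ × ℤ)) (o d : ℤ × ℤ) (L : ℤ),
  IsBoard M → Near M d n o → n ≤ k → o ≠ d → Ph a b o + cc a b * (k + 1) ≤ L →
  (∀ v, Basin M d a b L o v → v - o ∈ Box r) →
  ∃ s : Sys, Adm a b k s ∧ s.A ⊆ Box r ∧
    ∀ (w : List Dir) (u : ℤ × ℤ), u ∈ s.A → s.good w u → sees M d w (o + u)

/-- TRJ. The trajectory stays in the basin. Proof: induction on `w` (`step M I o = o` or adjacent to
`o`, then `Ph` grows by at most `c` (IsBoard, PHI); `¬ sees` gives `step M I o ≠ d`). -/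
def TRJStmt : Prop := ∀ (M : SimpleGraph (ℤ × ℤ)) (d : ℤ × ℤ) (a b L : ℤ) (w : List Dir)
  (o : ℤ × ℤ), IsBoard M → ¬ sees M d w o → Ph a b o + cc a b * w.length ≤ L →
  Basin M d a b L o (go M w o) ∧ Ph a b (go M w o) ≤ Ph a b o + cc a b * w.length

/-- INF. Infinite words from stages (taken by helper79). -/
def INFStmt : Prop := ∀ w : ℕ → ℕ → List Dir, ∃ (A : ℕ → Dir) (W : ℕ → List Dir), W 0 = [] ∧
  (∀ n, W (n + 1) = W n ++ (w n (W n).length ++ [Dir.N])) ∧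
  ∀ (M : SimpleGraph (ℤ × ℤ)) (o d : ℤ × ℤ) (n : ℕ), sees M d (W n) o → ∃ m, pos M A o m = d

/-- SEC. Sectors. Proof: `s = a x + b y ∈ [c, L - c']`, `t = a' x + b' y ∈ [c', L - c]`, and with
`D = a b' - a' b ≠ 0`: `D x = b' s - b t`, `D y = a t - a' s`; so `|x| + |y| ≤ S (L + C)` with
`S = |a| + |b| + |a'| + |b'|`, `C = |c| + |c'|`, and this is `≤ L^2` for `L ≥ K = S (1 + C) + 1`. -/
def SECStmt : Prop := ∀ a b a' b' c c' : ℤ, a * b' ≠ a' * b → ∃ K : ℕ, ∀ L : ℕ, K ≤ L →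
  ∀ v : ℤ × ℤ, c ≤ a * v.1 + b * v.2 → c' ≤ a' * v.1 + b' * v.2 → Ph (a + a') (b + b') v ≤ L →
  v.1.natAbs + v.2.natAbs ≤ L ^ 2

end Pool.H79.Drift
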